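import Pool.Agent.TH754.PS.Reflect

/-!
# A `Π¹₁`-definable, `Π¹₁`-sound extension of `Σ¹₁-AC₀` proving its own `Π¹₁`-soundness

All definitions (formulas and structures of `L_2`, satisfaction, provability, `ACA₀`, Goedel
numbers, arithmetizations, the reflection sentence, `Π¹₁`-soundness) are those of
`Pool.Agent.H986R3.SOADefs`; `choiceAx`, `Sigma11AC0` and `Pi11Defines` are in
`Pool.Agent.TH754.PS`.

The theory is `T = T0 ∪ {ρ}`, where `T0` is second-order arithmetic with full comprehension and the
full choice schema and `ρ` is `Π¹₁` reflection for pure logic. With `ax(a)` an arithmetical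
definition of (the Goedel numbers of) `T`, the `Π¹₁` definition is
`τ(a) = ax(a) ∧ ∀ x (x is a Π¹₁ sentence provable from axioms satisfying ax → True(x))`.
-/

set_option autoImplicit false

namespace Pool.Agent.Results.MP_51f008_lc.PiDefinableSelfReflection

open Pool.Agent.H986R3.SOA Pool.Agent.TH754.PS

/-- For every arithmetization of the metamathematics of `L_2` there is a `Π¹₁`-sound set `T` of
sentences which proves all axioms of `Σ¹₁-AC₀` and has a `Π¹₁` definition `τ` such that `T` proves
`∀ φ ∈ Π¹₁ (Pr_τ(φ) → True(φ))`. -/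
theorem result (𝒜 : Arithmetization) : ∃ T : Set Fm,
    (∀ φ ∈ T, φ.IsSentence) ∧ (∀ φ, Sigma11AC0 φ → Proves T φ) ∧ Pi11Sound T ∧
    ∃ τ : Fm, Pi11Defines τ T ∧ Proves T (𝒜.reflection τ) :=
  main 𝒜

end Pool.Agent.Results.MP_51f008_lc.PiDefinableSelfReflection
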